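import Pool.Agent.Lib_helper59.HT.Defs2
import Pool.Agent.Lib_helper59.HT.A_Z_pos
import Pool.Agent.Lib_helper59.HT.A_avoid_le

set_option autoImplicit false

open Finset Matrix

namespace Pool.Agent.HT

theorem l1_chi_neg {n : ℕ} (a b : Fin n) (e : Fin n × Fin n) : chi b a e = - chi a b e := by
  unfold chi; ring

theorem l1_tl_neg {n : ℕ} {A : Type*} [AddCommGroup A] (f : E' n → A) (a b : Fin n) :
    tl f b a = - tl f a b := by
  unfold tl
  rw [← Finset.sum_neg_distrib]
  refine Finset.sum_congr rfl fun e _ => ?_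
  rw [l1_chi_neg, neg_smul]

theorem l1_tl_self {n : ℕ} {A : Type*} [AddCommGroup A] (f : E' n → A) (a : Fin n) :
    tl f a a = 0 := by
  unfold tl chi
  simp

theorem l1_tl_pos {n : ℕ} {A : Type*} [AddCommGroup A] (f : E' n → A) {a b : Fin n}
    (h : 0 < a.val ∧ a < b) : tl f a b = f ⟨(a, b), h⟩ := by
  unfold tl
  rw [Finset.sum_eq_single (⟨(a, b), h⟩ : E' n)]
  · unfold chi
    have : ((a, b) : Fin n × Fin n) ≠ (b, a) := by
      intro hab
      have := (Prod.mk.inj hab).1
      exact h.2.ne this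
    simp [this]
  · intro e _ he
    unfold chi
    have h1 : e.1 ≠ (a, b) := fun h1 => he (Subtype.ext h1)
    have h2 : e.1 ≠ (b, a) := by
      intro h2
      have h3 := e.2
      rw [h2] at h3
      exact lt_asymm h.2 h3.2
    simp [h1, h2]
  · intro h1
    exact absurd (Finset.mem_univ _) h1

theorem l1_tl_zero {n : ℕ} {A : Type*} [AddCommGroup A] (f : E' n → A) {a b : Fin n}
    (h1 : ¬ (0 < a.val ∧ a < b)) (h2 : ¬ (0 < b.val ∧ b < a)) : tl f a b = 0 := by
  unfold tl
  refine Finset.sum_eq_zero fun e _ => ?_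
  unfold chi
  have h3 : e.1 ≠ (a, b) := by
    intro h3
    have h4 := e.2
    rw [h3] at h4
    exact h1 h4
  have h5 : e.1 ≠ (b, a) := by
    intro h3
    have h4 := e.2
    rw [h3] at h4
    exact h2 h4
  simp [h3, h5]

theorem l1_tl_edge {n : ℕ} {A : Type*} [AddCommGroup A] (f : E' n → A) (e : E' n) :
    tl f e.1.1 e.1.2 = f e := by
  rw [l1_tl_pos f e.2]

theorem l1_cob_iff {n : ℕ} {A : Type*} [AddCommGroup A] (f : E' n → A) (u v c : Fin n) :
    cob (tl f) (u, v, c) = 0 ↔ tl f u c + tl f c v = tl f u v := by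
  unfold cob
  simp only
  rw [l1_tl_neg f c v, l1_tl_neg f u c]
  constructor
  · intro h
    have : tl f u v = tl f u v + -tl f c v + -tl f u c + (tl f u c + tl f c v) := by abel
    rw [this, h, zero_add]
  · intro h
    rw [← h]; abel

theorem l1_cob_swap {n : ℕ} {A : Type*} [AddCommGroup A] (f : E' n → A) (a b c : Fin n) :
    cob (tl f) (b, a, c) = - cob (tl f) (a, b, c) := by
  unfold cob
  simp only
  rw [l1_tl_neg f a b, l1_tl_neg f c a, l1_tl_neg f b c]
  abel

theorem l1_cob_rot {n : ℕ} {A : Type*} [AddCommGroup A] (g : Fin n → Fin n → A) (a b c : Fin n) :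
    cob g (b, c, a) = cob g (a, b, c) := by
  unfold cob
  simp only
  abel

theorem l1_cob_self {n : ℕ} {A : Type*} [AddCommGroup A] (f : E' n → A) (a c : Fin n) :
    cob (tl f) (a, a, c) = 0 := by
  unfold cob
  simp only
  rw [l1_tl_self, l1_tl_neg f a c]
  abel

theorem l1_cnt_compl {n : ℕ} (Q : Fin n → Prop) (hn : 1 ≤ n) :
    1 - (cnt (fun c : Fin n => ¬ Q c) : ℝ) / n = (cnt Q : ℝ) / n := by
  classical
  have hn0 : (n : ℝ) ≠ 0 := by positivity
  have h : (cnt Q : ℝ) + cnt (fun c : Fin n => ¬ Q c) = n := by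
    unfold cnt
    have := Finset.card_filter_add_card_filter_not (s := (univ : Finset (Fin n))) Q
    rw [Finset.card_univ, Fintype.card_fin] at this
    rw [← Nat.cast_add]
    congr 1
    convert this
  field_simp
  linarith

theorem l1_cnt_le {n : ℕ} (Q : Fin n → Prop) : (cnt Q : ℝ) ≤ n := by
  classical
  unfold cnt
  have := Finset.card_filter_le (univ : Finset (Fin n)) Q
  rw [Finset.card_univ, Fintype.card_fin] at this
  exact_mod_cast this

/-- BLOCK L1 (from avoid_le) -/
theorem ldp_avoid_pr (n q : ℕ) (hn : 1 ≤ n) (f : E' n → ZMod q) :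
    mass (fun τ : E' n → Tri n => f ∈ Kq (ZMod q) τ) ≤
      Z n * ∏ e : E' n, nuf f e.1.1 e.1.2 (f e) := by
  classical
  set Y : Tri n → Prop := fun t => cob (tl f) t ≠ 0 with hYdef
  have hY : SymT Y := by
    intro a b c h
    refine ⟨?_, ?_, ?_⟩
    · show cob (tl f) (b, a, c) ≠ 0
      rw [l1_cob_swap]
      exact neg_ne_zero.mpr h
    · show cob (tl f) (b, c, a) ≠ 0
      rw [l1_cob_rot]
      exact h
    · rintro rfl
      exact h (l1_cob_self f a c)
  have h1 := avoid_le n hn Y hY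
  have h2 : (fun τ : E' n → Tri n => f ∈ Kq (ZMod q) τ) =
      fun τ : E' n → Tri n => ∀ i, ¬ Y (τ i) := by
    funext τ
    apply propext
    show Cyc τ f ↔ _
    unfold Cyc
    simp only [hYdef, not_not]
  rw [h2]
  have hZ : 0 ≤ Z n := (Z_pos n hn).le
  refine h1.trans (mul_le_mul_of_nonneg_left ?_ hZ)
  -- the product over `E n` is at most the product over `E' n`
  set g : E n → ℝ := fun e => 1 - (cnt (fun c : Fin n => Y (e.1.1, e.1.2, c)) : ℝ) / n with hg
  have hn0 : (0 : ℝ) < n := by positivity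
  have hg0 : ∀ e, 0 ≤ g e := by
    intro e
    have := l1_cnt_le (fun c : Fin n => Y (e.1.1, e.1.2, c))
    simp only [hg]
    rw [sub_nonneg, div_le_one hn0]
    exact this
  have hg1 : ∀ e, g e ≤ 1 := by
    intro e
    simp only [hg]
    have : (0 : ℝ) ≤ (cnt (fun c : Fin n => Y (e.1.1, e.1.2, c)) : ℝ) / n := by positivity
    linarith
  let ι : E' n → E n := fun e => ⟨e.1, e.2.2⟩
  have hι : Function.Injective ι := by
    intro a b hab
    have := congrArg Subtype.val hab
    exact Subtype.ext this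
  have h3 : ∏ e : E n, g e ≤ ∏ e ∈ (univ : Finset (E' n)).image ι, g e :=
    Finset.prod_le_prod_of_subset_of_le_one (Finset.subset_univ _) (fun e _ => hg0 e)
      (fun e _ _ => hg1 e)
  refine h3.trans (le_of_eq ?_)
  rw [Finset.prod_image (fun a _ b _ hab => hι hab)]
  refine Finset.prod_congr rfl fun e _ => ?_
  simp only [hg, hYdef, ι]
  rw [l1_cnt_compl _ hn]
  unfold nuf
  congr 2
  unfold cnt
  congr 1
  ext c
  simp only [Finset.mem_filter, Finset.mem_univ, true_and]
  rw [l1_cob_iff, l1_tl_edge]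

end Pool.Agent.HT
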