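import Pool.Agent.Lib_helper59.HT.Defs2

set_option autoImplicit false

open Finset Matrix

namespace Pool.Agent.HT

/-- second moment of a sum of `m` independent centred terms -/
theorem l2_var {n : ℕ} (g : Fin n → ℝ) (hg : ∑ x, g x = 0) (hg1 : ∀ x, |g x| ≤ 1) (m : ℕ) :
    ∑ c : Fin m → Fin n, (∑ i, g (c i)) ^ 2 ≤ m * (n : ℝ) ^ m ∧
      ∑ c : Fin m → Fin n, ∑ i, g (c i) = 0 := by
  induction m with
  | zero => simp
  | succ m ih =>
    obtain ⟨ih1, ih2⟩ := ih
    have h1 : ∀ F : (Fin (m + 1) → Fin n) → ℝ, ∑ c, F c =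
        ∑ x : Fin n, ∑ c : Fin m → Fin n, F (Fin.cons x c) := by
      intro F
      rw [← (Fin.consEquiv (fun _ : Fin (m + 1) => Fin n)).sum_comp, Fintype.sum_prod_type]
      rfl
    have h2 : ∀ (x : Fin n) (c : Fin m → Fin n),
        ∑ i : Fin (m + 1), g ((Fin.cons x c : Fin (m + 1) → Fin n) i) = g x + ∑ i, g (c i) := by
      intro x c
      rw [Fin.sum_univ_succ]
      simp
    constructor
    · rw [h1]
      simp_rw [h2]
      have h3 : ∀ x : Fin n, ∑ c : Fin m → Fin n, (g x + ∑ i, g (c i)) ^ 2 =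
          (n : ℝ) ^ m * g x ^ 2 + ∑ c : Fin m → Fin n, (∑ i, g (c i)) ^ 2 := by
        intro x
        have : ∀ c : Fin m → Fin n, (g x + ∑ i, g (c i)) ^ 2 =
            g x ^ 2 + 2 * g x * (∑ i, g (c i)) + (∑ i, g (c i)) ^ 2 := fun c => by ring
        simp_rw [this]
        rw [Finset.sum_add_distrib, Finset.sum_add_distrib, ← Finset.mul_sum, ih2]
        simp
      simp_rw [h3]
      rw [Finset.sum_add_distrib, ← Finset.mul_sum]
      have h4 : ∑ x, g x ^ 2 ≤ n := by
        calc ∑ x, g x ^ 2 ≤ ∑ _x : Fin n, (1 : ℝ) := by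
              refine Finset.sum_le_sum fun x _ => ?_
              rw [← sq_abs]
              have := hg1 x
              have := abs_nonneg (g x)
              nlinarith
          _ = n := by simp
      have h5 : ∑ _x : Fin n, ∑ c : Fin m → Fin n, (∑ i, g (c i)) ^ 2 =
          n * ∑ c : Fin m → Fin n, (∑ i, g (c i)) ^ 2 := by simp
      rw [h5]
      have h6 : (n : ℝ) ^ m * ∑ x, g x ^ 2 ≤ (n : ℝ) ^ m * n :=
        mul_le_mul_of_nonneg_left h4 (by positivity)
      have h7 : (n : ℝ) * ∑ c : Fin m → Fin n, (∑ i, g (c i)) ^ 2 ≤ n * (m * (n : ℝ) ^ m) :=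
        mul_le_mul_of_nonneg_left ih1 (by positivity)
      push_cast
      rw [pow_succ]
      nlinarith
    · rw [h1]
      simp_rw [h2]
      simp_rw [Finset.sum_add_distrib]
      simp [ih2, ← Finset.mul_sum, hg]

theorem l2_abs {n : ℕ} (g : Fin n → ℝ) (hg : ∑ x, g x = 0) (hg1 : ∀ x, |g x| ≤ 1) {m : ℕ}
    (hm : 1 ≤ m) :
    ∑ c : Fin m → Fin n, |(∑ i, g (c i)) / m| ≤ (n : ℝ) ^ m / Real.sqrt m := by
  have hm0 : (0 : ℝ) < m := by positivity
  have h1 := (l2_var g hg hg1 m).1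
  have h3 : (∑ c : Fin m → Fin n, |(∑ i, g (c i)) / m| * 1) ^ 2 ≤
      (∑ c : Fin m → Fin n, |(∑ i, g (c i)) / m| ^ 2) * ∑ _c : Fin m → Fin n, (1 : ℝ) ^ 2 :=
    Finset.sum_mul_sq_le_sq_mul_sq _ _ _
  simp only [mul_one, one_pow, Finset.sum_const, Finset.card_univ, Fintype.card_fun,
    Fintype.card_fin, nsmul_eq_mul] at h3
  have h4 : ∑ c : Fin m → Fin n, |(∑ i, g (c i)) / m| ^ 2 ≤ (n : ℝ) ^ m / m := by
    have : ∀ c : Fin m → Fin n, |(∑ i, g (c i)) / m| ^ 2 = (∑ i, g (c i)) ^ 2 / (m : ℝ) ^ 2 := by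
      intro c
      rw [sq_abs, div_pow]
    simp_rw [this]
    rw [← Finset.sum_div, div_le_div_iff₀ (by positivity) hm0]
    calc (∑ c : Fin m → Fin n, (∑ i, g (c i)) ^ 2) * m ≤ (m * (n : ℝ) ^ m) * m :=
          mul_le_mul_of_nonneg_right h1 hm0.le
      _ = (n : ℝ) ^ m * (m : ℝ) ^ 2 := by ring
  have h5 : (∑ c : Fin m → Fin n, |(∑ i, g (c i)) / m|) ^ 2 ≤ ((n : ℝ) ^ m / Real.sqrt m) ^ 2 := by
    refine h3.trans ?_
    rw [div_pow, Real.sq_sqrt hm0.le]
    push_cast
    calc (∑ c : Fin m → Fin n, |(∑ i, g (c i)) / m| ^ 2) * (n : ℝ) ^ m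
        ≤ ((n : ℝ) ^ m / m) * (n : ℝ) ^ m := mul_le_mul_of_nonneg_right h4 (by positivity)
      _ = ((n : ℝ) ^ m) ^ 2 / m := by ring
  exact le_of_sq_le_sq h5 (by positivity)

/-- BLOCK L2 -/
theorem sampling_pr (n q m : ℕ) (hn : 1 ≤ n) (hm : 1 ≤ m) [NeZero q] (f : E' n → ZMod q) :
    ∃ ρ : Fin m → Fin n → ZMod q,
      ∑ a : ZMod q, ∑ u, ∑ v, |nuf f u v a - nur ρ u v a| ≤ q * (n : ℝ) ^ 2 / Real.sqrt m := by
  classical
  have hm0 : (0 : ℝ) < m := by positivity
  have hn0 : (0 : ℝ) < n := by positivity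
  let R : (Fin m → Fin n) → Fin m → Fin n → ZMod q := fun c i u => tl f u (c i)
  have hneg : ∀ v x : Fin n, tl f x v = - tl f v x := by
    intro v x
    unfold tl
    rw [← Finset.sum_neg_distrib]
    refine Finset.sum_congr rfl fun e _ => ?_
    have : chi x v e.1 = - chi v x e.1 := by unfold chi; ring
    rw [this, neg_smul]
  have key : ∀ (a : ZMod q) (u v : Fin n),
      ∑ c : Fin m → Fin n, |nuf f u v a - nur (R c) u v a| ≤ (n : ℝ) ^ m / Real.sqrt m := by
    intro a u v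
    set g : Fin n → ℝ := fun x => (if tl f u x + tl f x v = a then 1 else 0) - nuf f u v a with hgd
    have hc : (∑ x : Fin n, (if tl f u x + tl f x v = a then (1 : ℝ) else 0)) =
        (cnt (fun c : Fin n => tl f u c + tl f c v = a) : ℝ) := by
      unfold cnt
      rw [Finset.sum_boole]
      congr 2
      ext x
      simp only [Finset.mem_filter, Finset.mem_univ, true_and]
    have hg : ∑ x, g x = 0 := by
      simp only [hgd]
      rw [Finset.sum_sub_distrib, hc]
      unfold nuf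
      simp
      field_simp
      simp
    have hnu0 : 0 ≤ nuf f u v a := by unfold nuf; positivity
    have hnu1 : nuf f u v a ≤ 1 := by
      unfold nuf
      rw [div_le_one hn0, ← hc]
      calc (∑ x : Fin n, (if tl f u x + tl f x v = a then (1 : ℝ) else 0))
          ≤ ∑ _x : Fin n, (1 : ℝ) := by
            refine Finset.sum_le_sum fun x _ => ?_
            split_ifs <;> norm_num
        _ = n := by simp
    have hg1 : ∀ x, |g x| ≤ 1 := by
      intro x
      simp only [hgd]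
      rw [abs_le]
      split_ifs <;> constructor <;> linarith
    have h1 := l2_abs g hg hg1 hm
    refine le_trans (le_of_eq ?_) h1
    refine Finset.sum_congr rfl fun c _ => ?_
    rw [abs_sub_comm]
    congr 1
    simp only [hgd]
    rw [Finset.sum_sub_distrib]
    have h2 : ∑ i : Fin m, (if tl f u (c i) + tl f (c i) v = a then (1 : ℝ) else 0) =
        (cnt (fun i : Fin m => R c i u - R c i v = a) : ℝ) := by
      unfold cnt
      rw [Finset.sum_boole]
      congr 2
      ext i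
      simp only [Finset.mem_filter, Finset.mem_univ, true_and, R]
      rw [hneg v (c i), sub_eq_add_neg]
    rw [h2]
    unfold nur
    simp
    field_simp
  have htot : ∑ c : Fin m → Fin n, (∑ a : ZMod q, ∑ u, ∑ v, |nuf f u v a - nur (R c) u v a|) ≤
      ∑ _c : Fin m → Fin n, (q * (n : ℝ) ^ 2 / Real.sqrt m) := by
    rw [Finset.sum_comm]
    calc ∑ a : ZMod q, ∑ c : Fin m → Fin n, ∑ u, ∑ v, |nuf f u v a - nur (R c) u v a|
        = ∑ a : ZMod q, ∑ u, ∑ v, ∑ c : Fin m → Fin n, |nuf f u v a - nur (R c) u v a| := by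
          refine Finset.sum_congr rfl fun a _ => ?_
          rw [Finset.sum_comm]
          refine Finset.sum_congr rfl fun u _ => ?_
          rw [Finset.sum_comm]
      _ ≤ ∑ _a : ZMod q, ∑ _u : Fin n, ∑ _v : Fin n, (n : ℝ) ^ m / Real.sqrt m :=
          Finset.sum_le_sum fun a _ => Finset.sum_le_sum fun u _ =>
            Finset.sum_le_sum fun v _ => key a u v
      _ = ∑ _c : Fin m → Fin n, (q * (n : ℝ) ^ 2 / Real.sqrt m) := by
          simp
          ring
  have : Nonempty (Fin m → Fin n) := ⟨fun _ => ⟨0, hn⟩⟩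
  obtain ⟨c, -, hc⟩ := Finset.exists_le_of_sum_le Finset.univ_nonempty htot
  exact ⟨R c, hc⟩

end Pool.Agent.HT
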