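import Pool.Agent.Lib_helper59.HT.Defs2

set_option autoImplicit false

open Finset Matrix

namespace Pool.Agent.HT

/-- Hoeffding's lemma, finite version -/
theorem l3_mgf {α : Type*} [Fintype α] (μ : α → ℝ) (hμ : ∀ a, 0 ≤ μ a) (hμ1 : ∑ a, μ a = 1)
    (X : α → ℝ) {c : ℝ} (hc : 0 < c) (hX : ∀ a, |X a| ≤ c) (hm : ∑ a, μ a * X a = 0) (l : ℝ) :
    ∑ a, μ a * Real.exp (l * X a) ≤ Real.exp (c ^ 2 * l ^ 2 / 2) := by
  have h1 : ∀ a, Real.exp (l * X a) ≤ Real.cosh (l * c) + X a / c * Real.sinh (l * c) := by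
    intro a
    have h := abs_le.mp (hX a)
    have hw1 : 0 ≤ (c + X a) / (2 * c) := by
      apply div_nonneg <;> linarith
    have hw2 : 0 ≤ (c - X a) / (2 * c) := by
      apply div_nonneg <;> linarith
    have hw : (c + X a) / (2 * c) + (c - X a) / (2 * c) = 1 := by
      field_simp
      ring
    have := convexOn_exp.2 (Set.mem_univ (l * c)) (Set.mem_univ (-(l * c))) hw1 hw2 hw
    simp only [smul_eq_mul] at this
    have e1 : (c + X a) / (2 * c) * (l * c) + (c - X a) / (2 * c) * (-(l * c)) = l * X a := by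
      field_simp
      ring
    rw [e1] at this
    refine this.trans (le_of_eq ?_)
    rw [Real.cosh_eq, Real.sinh_eq]
    field_simp
    ring
  calc ∑ a, μ a * Real.exp (l * X a)
      ≤ ∑ a, μ a * (Real.cosh (l * c) + X a / c * Real.sinh (l * c)) :=
        Finset.sum_le_sum fun a _ => mul_le_mul_of_nonneg_left (h1 a) (hμ a)
    _ = Real.cosh (l * c) * ∑ a, μ a + (Real.sinh (l * c) / c) * ∑ a, μ a * X a := by
        rw [Finset.mul_sum, Finset.mul_sum, ← Finset.sum_add_distrib]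
        refine Finset.sum_congr rfl fun a _ => ?_
        ring
    _ = Real.cosh (l * c) := by rw [hμ1, hm]; ring
    _ ≤ Real.exp ((l * c) ^ 2 / 2) := Real.cosh_le_exp_half_sq _
    _ = Real.exp (c ^ 2 * l ^ 2 / 2) := by congr 1; ring

/-- Chernoff bound for a product measure -/
theorem l3_chernoff {ι α : Type} [Fintype ι] [DecidableEq ι] [Fintype α]
    (μ : ι → α → ℝ) (hμ : ∀ e a, 0 ≤ μ e a) (hμ1 : ∀ e, ∑ a, μ e a = 1)
    (X : ι → α → ℝ) {c : ℝ} (hc : 0 < c) (hX : ∀ e a, |X e a| ≤ c)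
    (hm : ∀ e, ∑ a, μ e a * X e a = 0) (l : ℝ) :
    ∑ f : ι → α, (∏ e, μ e (f e)) * Real.exp (l * ∑ e, X e (f e)) ≤
      Real.exp (c ^ 2 * l ^ 2 / 2 * Fintype.card ι) := by
  have h1 : ∀ f : ι → α, (∏ e, μ e (f e)) * Real.exp (l * ∑ e, X e (f e)) =
      ∏ e, (μ e (f e) * Real.exp (l * X e (f e))) := by
    intro f
    rw [Finset.prod_mul_distrib, Finset.mul_sum, Real.exp_sum]
  simp_rw [h1]
  rw [← Fintype.prod_sum (fun e a => μ e a * Real.exp (l * X e a))]
  calc ∏ e, ∑ a, μ e a * Real.exp (l * X e a)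
      ≤ ∏ _e : ι, Real.exp (c ^ 2 * l ^ 2 / 2) := by
        refine Finset.prod_le_prod (fun e _ => Finset.sum_nonneg fun a _ =>
          mul_nonneg (hμ e a) (Real.exp_pos _).le) fun e _ => ?_
        exact l3_mgf (μ e) (hμ e) (hμ1 e) (X e) hc (hX e) (hm e) l
    _ = Real.exp (c ^ 2 * l ^ 2 / 2 * Fintype.card ι) := by
        rw [Finset.prod_const, Finset.card_univ, ← Real.exp_nat_mul]
        congr 1
        ring

open Classical in
/-- two sided tail -/
theorem l3_tail {ι α : Type} [Fintype ι] [DecidableEq ι] [Fintype α]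
    (μ : ι → α → ℝ) (hμ : ∀ e a, 0 ≤ μ e a) (hμ1 : ∀ e, ∑ a, μ e a = 1)
    (X : ι → α → ℝ) {c : ℝ} (hc : 0 < c) (hX : ∀ e a, |X e a| ≤ c)
    (hm : ∀ e, ∑ a, μ e a * X e a = 0) (l t : ℝ) (hl : 0 ≤ l) :
    ∑ f : ι → α, (∏ e, μ e (f e)) * (if t < |∑ e, X e (f e)| then 1 else 0) ≤
      2 * Real.exp (c ^ 2 * l ^ 2 / 2 * Fintype.card ι - l * t) := by
  have h1 := l3_chernoff μ hμ hμ1 X hc hX hm l
  have h2 := l3_chernoff μ hμ hμ1 X hc hX hm (-l)
  have h3 : ∀ s : ℝ, (if t < |s| then (1 : ℝ) else 0) ≤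
      Real.exp (-(l * t)) * (Real.exp (l * s) + Real.exp (-l * s)) := by
    intro s
    split_ifs with h
    · have h4 : 1 ≤ Real.exp (-(l * t)) * Real.exp (l * |s|) := by
        rw [← Real.exp_add]
        apply Real.one_le_exp
        have := mul_le_mul_of_nonneg_left h.le hl
        linarith
      refine h4.trans (mul_le_mul_of_nonneg_left ?_ (Real.exp_pos _).le)
      rcases abs_cases s with ⟨h5, -⟩ | ⟨h5, -⟩
      · rw [h5]
        have := Real.exp_pos (-l * s)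
        linarith
      · rw [h5]
        have := Real.exp_pos (l * s)
        have e : l * -s = -l * s := by ring
        rw [e]
        linarith
    · positivity
  calc ∑ f : ι → α, (∏ e, μ e (f e)) * (if t < |∑ e, X e (f e)| then 1 else 0)
      ≤ ∑ f : ι → α, (∏ e, μ e (f e)) * (Real.exp (-(l * t)) *
          (Real.exp (l * ∑ e, X e (f e)) + Real.exp (-l * ∑ e, X e (f e)))) :=
        Finset.sum_le_sum fun f _ => mul_le_mul_of_nonneg_left (h3 _)
          (Finset.prod_nonneg fun e _ => hμ e _)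
    _ = Real.exp (-(l * t)) * (∑ f : ι → α, (∏ e, μ e (f e)) * Real.exp (l * ∑ e, X e (f e)) +
          ∑ f : ι → α, (∏ e, μ e (f e)) * Real.exp (-l * ∑ e, X e (f e))) := by
        rw [← Finset.sum_add_distrib, Finset.mul_sum]
        refine Finset.sum_congr rfl fun f _ => ?_
        ring
    _ ≤ Real.exp (-(l * t)) * (Real.exp (c ^ 2 * l ^ 2 / 2 * Fintype.card ι) +
          Real.exp (c ^ 2 * (-l) ^ 2 / 2 * Fintype.card ι)) :=
        mul_le_mul_of_nonneg_left (add_le_add h1 h2) (Real.exp_pos _).le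
    _ = 2 * Real.exp (c ^ 2 * l ^ 2 / 2 * Fintype.card ι - l * t) := by
        have e1 : (-l) ^ 2 = l ^ 2 := by ring
        have e2 : c ^ 2 * l ^ 2 / 2 * (Fintype.card ι : ℝ) - l * t =
          -(l * t) + c ^ 2 * l ^ 2 / 2 * Fintype.card ι := by ring
        rw [e1, e2, Real.exp_add]
        ring

theorem l3_pairs {n : ℕ} (F : Fin n → Fin n → ℝ)
    (h0 : ∀ u v, ¬ (0 < u.val ∧ u < v) → ¬ (0 < v.val ∧ v < u) → F u v = 0) :
    ∑ u, ∑ v, F u v = ∑ e : E' n, (F e.1.1 e.1.2 + F e.1.2 e.1.1) := by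
  classical
  have h1 : ∑ u, ∑ v, F u v = ∑ p : Fin n × Fin n,
      ((if 0 < p.1.val ∧ p.1 < p.2 then F p.1 p.2 else 0) +
        (if 0 < p.2.val ∧ p.2 < p.1 then F p.1 p.2 else 0)) := by
    rw [← Fintype.sum_prod_type']
    refine Finset.sum_congr rfl fun p _ => ?_
    by_cases ha : 0 < p.1.val ∧ p.1 < p.2
    · have hb : ¬ (0 < p.2.val ∧ p.2 < p.1) := fun hb => lt_asymm ha.2 hb.2
      rw [if_pos ha, if_neg hb, add_zero]
    · by_cases hb : 0 < p.2.val ∧ p.2 < p.1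
      · rw [if_neg ha, if_pos hb, zero_add]
      · rw [if_neg ha, if_neg hb, add_zero]
        exact h0 _ _ ha hb
  have h2 : ∑ p : Fin n × Fin n, (if 0 < p.2.val ∧ p.2 < p.1 then F p.1 p.2 else 0) =
      ∑ p : Fin n × Fin n, (if 0 < p.1.val ∧ p.1 < p.2 then F p.2 p.1 else 0) := by
    rw [← (Equiv.prodComm (Fin n) (Fin n)).sum_comp]
    rfl
  rw [h1, Finset.sum_add_distrib, h2, ← Finset.sum_add_distrib]
  have h3 : ∀ p : Fin n × Fin n, ((if 0 < p.1.val ∧ p.1 < p.2 then F p.1 p.2 else 0) +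
      (if 0 < p.1.val ∧ p.1 < p.2 then F p.2 p.1 else 0)) =
      if 0 < p.1.val ∧ p.1 < p.2 then (F p.1 p.2 + F p.2 p.1) else 0 := by
    intro p
    split_ifs <;> simp
  simp_rw [h3]
  rw [← Finset.sum_filter]
  exact Finset.sum_subtype _ (by simp) _

theorem l3_chi {n q : ℕ} (f : E' n → ZMod q) (e : E' n) :
    tl f e.1.1 e.1.2 = f e ∧ tl f e.1.2 e.1.1 = - f e := by
  classical
  have h1 : tl f e.1.1 e.1.2 = f e := by
    unfold tl
    rw [Finset.sum_eq_single e]
    · unfold chi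
      have : (e.1 : Fin n × Fin n) ≠ (e.1.2, e.1.1) := by
        intro hab
        have := congrArg Prod.fst hab
        exact e.2.2.ne this
      simp [this]
    · intro e' _ he
      unfold chi
      have h1 : e'.1 ≠ (e.1.1, e.1.2) := fun h1 => he (Subtype.ext h1)
      have h2 : e'.1 ≠ (e.1.2, e.1.1) := by
        intro h2
        have h3 := e'.2
        rw [h2] at h3
        exact lt_asymm e.2.2 h3.2
      simp [h1, h2]
    · intro h1
      exact absurd (Finset.mem_univ _) h1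
  refine ⟨h1, ?_⟩
  rw [← h1]
  unfold tl
  rw [← Finset.sum_neg_distrib]
  refine Finset.sum_congr rfl fun e' _ => ?_
  have : chi e.1.2 e.1.1 e'.1 = - chi e.1.1 e.1.2 e'.1 := by unfold chi; ring
  rw [this, neg_smul]

theorem l3_tl_zero {n q : ℕ} (f : E' n → ZMod q) {a b : Fin n}
    (h1 : ¬ (0 < a.val ∧ a < b)) (h2 : ¬ (0 < b.val ∧ b < a)) : tl f a b = 0 := by
  unfold tl
  refine Finset.sum_eq_zero fun e _ => ?_
  unfold chi
  have h3 : e.1 ≠ (a, b) := by
    intro h3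
    have h4 := e.2
    rw [h3] at h4
    exact h1 h4
  have h5 : e.1 ≠ (b, a) := by
    intro h3
    have h4 := e.2
    rw [h3] at h4
    exact h2 h4
  simp [h3, h5]

theorem l3_muT {n q : ℕ} (μ : E' n → ZMod q → ℝ) (e : E' n) (a : ZMod q) :
    muT μ e.1.1 e.1.2 a = μ e a ∧ muT μ e.1.2 e.1.1 a = μ e (-a) := by
  have h1 : 0 < e.1.1.val ∧ e.1.1 < e.1.2 := e.2
  have h2 : ¬ (0 < e.1.2.val ∧ e.1.2 < e.1.1) := fun hb => lt_asymm h1.2 hb.2
  constructor
  · unfold muT
    rw [dif_pos h1]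
  · unfold muT
    rw [dif_neg h2, dif_pos h1]

open Classical in
theorem l3_cell (n q : ℕ) (hn : 1 ≤ n) [NeZero q] (μ : E' n → ZMod q → ℝ)
    (hμ : ∀ e a, 0 ≤ μ e a) (hμ1 : ∀ e, ∑ a, μ e a = 1) (ε4 : ℝ) (h4 : 0 < ε4)
    (a : ZMod q) (A B : Finset (Fin n)) :
    ∑ f : E' n → ZMod q, (∏ e, μ e (f e)) *
      (if ε4 * (n : ℝ) ^ 2 < |∑ u ∈ A, ∑ v ∈ B, (indf f u v a - muT μ u v a)| then 1 else 0) ≤
      2 * Real.exp (-(ε4 ^ 2 * (n : ℝ) ^ 2 / 16)) := by
  set X : E' n → ZMod q → ℝ := fun e b =>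
    (if e.1.1 ∈ A ∧ e.1.2 ∈ B then ((if b = a then 1 else 0) - μ e a) else 0) +
    (if e.1.2 ∈ A ∧ e.1.1 ∈ B then ((if -b = a then 1 else 0) - μ e (-a)) else 0) with hX
  have hle1 : ∀ e b, μ e b ≤ 1 := by
    intro e b
    rw [← hμ1 e]
    exact Finset.single_le_sum (fun c _ => hμ e c) (Finset.mem_univ b)
  have hXb : ∀ e b, |X e b| ≤ 2 := by
    intro e b
    have g1 : |(if e.1.1 ∈ A ∧ e.1.2 ∈ B then ((if b = a then (1 : ℝ) else 0) - μ e a) else 0)|
        ≤ 1 := by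
      have := hμ e a
      have := hle1 e a
      rw [abs_le]
      split_ifs <;> constructor <;> linarith
    have g2 : |(if e.1.2 ∈ A ∧ e.1.1 ∈ B then ((if -b = a then (1 : ℝ) else 0) - μ e (-a))
        else 0)| ≤ 1 := by
      have := hμ e (-a)
      have := hle1 e (-a)
      rw [abs_le]
      split_ifs <;> constructor <;> linarith
    simp only [hX]
    refine (abs_add_le _ _).trans ?_
    linarith
  have hXm : ∀ e, ∑ b, μ e b * X e b = 0 := by
    intro e
    simp only [hX]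
    have e1 : ∑ b, μ e b * (if b = a then (1 : ℝ) else 0) = μ e a := by simp
    have e2 : ∑ b, μ e b * (if -b = a then (1 : ℝ) else 0) = μ e (-a) := by
      have : ∀ b : ZMod q, (-b = a) = (b = -a) := fun b => by rw [neg_eq_iff_eq_neg]
      simp_rw [this]
      simp
    have e3 : ∑ b, μ e b * (if e.1.1 ∈ A ∧ e.1.2 ∈ B then
        ((if b = a then (1 : ℝ) else 0) - μ e a) else 0) = 0 := by
      split_ifs with h
      · simp_rw [mul_sub]
        rw [Finset.sum_sub_distrib, e1, ← Finset.sum_mul, hμ1, one_mul, sub_self]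
      · simp
    have e4 : ∑ b, μ e b * (if e.1.2 ∈ A ∧ e.1.1 ∈ B then
        ((if -b = a then (1 : ℝ) else 0) - μ e (-a)) else 0) = 0 := by
      split_ifs with h
      · simp_rw [mul_sub]
        rw [Finset.sum_sub_distrib, e2, ← Finset.sum_mul, hμ1, one_mul, sub_self]
      · simp
    simp_rw [mul_add]
    rw [Finset.sum_add_distrib, e3, e4, add_zero]
  have hS : ∀ f : E' n → ZMod q, ∑ u ∈ A, ∑ v ∈ B, (indf f u v a - muT μ u v a) =
      ∑ e, X e (f e) := by
    intro f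
    have e1 : ∑ u ∈ A, ∑ v ∈ B, (indf f u v a - muT μ u v a) =
        ∑ u, ∑ v, (if u ∈ A ∧ v ∈ B then (indf f u v a - muT μ u v a) else 0) := by
      rw [← Finset.sum_filter_add_sum_filter_not (univ : Finset (Fin n)) (fun u => u ∈ A)]
      have z : ∑ u ∈ univ.filter (fun u => ¬ u ∈ A), ∑ v,
          (if u ∈ A ∧ v ∈ B then (indf f u v a - muT μ u v a) else 0) = 0 := by
        refine Finset.sum_eq_zero fun u hu => ?_
        simp only [Finset.mem_filter, Finset.mem_univ, true_and] at hu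
        simp [hu]
      rw [z, add_zero]
      have fA : univ.filter (fun u => u ∈ A) = A := by ext; simp
      rw [fA]
      refine Finset.sum_congr rfl fun u hu => ?_
      simp only [hu, true_and]
      rw [← Finset.sum_filter]
      have fB : univ.filter (fun u => u ∈ B) = B := by ext; simp
      rw [fB]
    rw [e1, l3_pairs]
    · refine Finset.sum_congr rfl fun e _ => ?_
      simp only [hX]
      obtain ⟨t1, t2⟩ := l3_chi f e
      obtain ⟨m1, m2⟩ := l3_muT μ e a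
      unfold indf
      rw [t1, t2, m1, m2]
    · intro u v h1 h2
      have : indf f u v a - muT μ u v a = 0 := by
        unfold indf muT
        rw [l3_tl_zero f h1 h2, dif_neg h1, dif_neg h2]
        by_cases ha : a = 0
        · simp [ha]
        · have : (0 : ZMod q) ≠ a := fun h => ha h.symm
          simp [ha, this]
      rw [this]
      simp
  simp_rw [hS]
  have hcard : (Fintype.card (E' n) : ℝ) ≤ (n : ℝ) ^ 2 := by
    have : Fintype.card (E' n) ≤ Fintype.card (Fin n × Fin n) := Fintype.card_subtype_le _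
    rw [Fintype.card_prod, Fintype.card_fin] at this
    calc (Fintype.card (E' n) : ℝ) ≤ ((n * n : ℕ) : ℝ) := by exact_mod_cast this
      _ = (n : ℝ) ^ 2 := by push_cast; ring
  have h5 := l3_tail μ hμ hμ1 X (c := 2) two_pos hXb hXm (ε4 / 4) (ε4 * (n : ℝ) ^ 2)
    (by positivity)
  refine h5.trans (mul_le_mul_of_nonneg_left (Real.exp_le_exp.mpr ?_) zero_le_two)
  have h6 : (2 : ℝ) ^ 2 * (ε4 / 4) ^ 2 / 2 * (Fintype.card (E' n) : ℝ) ≤
      (2 : ℝ) ^ 2 * (ε4 / 4) ^ 2 / 2 * (n : ℝ) ^ 2 := mul_le_mul_of_nonneg_left hcard (by positivity)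
  have h7 : 0 ≤ ε4 ^ 2 * (n : ℝ) ^ 2 := by positivity
  nlinarith

open Classical in
/-- BLOCK L3 -/
theorem conc_pr (n q : ℕ) (hn : 1 ≤ n) [NeZero q] (μ : E' n → ZMod q → ℝ)
    (hμ : ∀ e a, 0 ≤ μ e a) (hμ1 : ∀ e, ∑ a, μ e a = 1) (ε4 : ℝ) (h4 : 0 < ε4) (h41 : ε4 ≤ 1) :
    ∑ f : E' n → ZMod q, (∏ e, μ e (f e)) *
      (if CutClose (indf f) (muT μ) (ε4 * (n : ℝ) ^ 2) then 0 else 1) ≤
      2 * q * 4 ^ n * Real.exp (-(ε4 ^ 2 * (n : ℝ) ^ 2 / 16)) := by
  have h1 : ∀ f : E' n → ZMod q,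
      (if CutClose (indf f) (muT μ) (ε4 * (n : ℝ) ^ 2) then (0 : ℝ) else 1) ≤
      ∑ a : ZMod q, ∑ A : Finset (Fin n), ∑ B : Finset (Fin n),
        (if ε4 * (n : ℝ) ^ 2 < |∑ u ∈ A, ∑ v ∈ B, (indf f u v a - muT μ u v a)| then 1 else 0) := by
    intro f
    have hnn : ∀ (a : ZMod q) (A B : Finset (Fin n)), (0 : ℝ) ≤
      (if ε4 * (n : ℝ) ^ 2 < |∑ u ∈ A, ∑ v ∈ B, (indf f u v a - muT μ u v a)| then 1 else 0) := by
      intro a A B
      split_ifs <;> norm_num
    split_ifs with h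
    · exact Finset.sum_nonneg fun a _ => Finset.sum_nonneg fun A _ => Finset.sum_nonneg
        fun B _ => hnn a A B
    · unfold CutClose at h
      push Not at h
      obtain ⟨a, A, B, hab⟩ := h
      calc (1 : ℝ) = (if ε4 * (n : ℝ) ^ 2 < |∑ u ∈ A, ∑ v ∈ B, (indf f u v a - muT μ u v a)|
            then 1 else 0) := by rw [if_pos hab]
        _ ≤ ∑ B : Finset (Fin n), (if ε4 * (n : ℝ) ^ 2 <
            |∑ u ∈ A, ∑ v ∈ B, (indf f u v a - muT μ u v a)| then 1 else 0) :=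
            Finset.single_le_sum (f := fun B : Finset (Fin n) => (if ε4 * (n : ℝ) ^ 2 <
              |∑ u ∈ A, ∑ v ∈ B, (indf f u v a - muT μ u v a)| then (1 : ℝ) else 0))
              (fun B _ => hnn a A B) (Finset.mem_univ B)
        _ ≤ ∑ A : Finset (Fin n), ∑ B : Finset (Fin n), (if ε4 * (n : ℝ) ^ 2 <
            |∑ u ∈ A, ∑ v ∈ B, (indf f u v a - muT μ u v a)| then 1 else 0) :=
            Finset.single_le_sum (f := fun A : Finset (Fin n) => ∑ B : Finset (Fin n),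
              (if ε4 * (n : ℝ) ^ 2 <
              |∑ u ∈ A, ∑ v ∈ B, (indf f u v a - muT μ u v a)| then (1 : ℝ) else 0))
              (fun A _ => Finset.sum_nonneg fun B _ => hnn a A B) (Finset.mem_univ A)
        _ ≤ _ := Finset.single_le_sum (f := fun a : ZMod q => ∑ A : Finset (Fin n),
              ∑ B : Finset (Fin n), (if ε4 * (n : ℝ) ^ 2 <
              |∑ u ∈ A, ∑ v ∈ B, (indf f u v a - muT μ u v a)| then (1 : ℝ) else 0))
              (fun a _ => Finset.sum_nonneg fun A _ => Finset.sum_nonneg fun B _ => hnn a A B)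
              (Finset.mem_univ a)
  calc ∑ f : E' n → ZMod q, (∏ e, μ e (f e)) *
      (if CutClose (indf f) (muT μ) (ε4 * (n : ℝ) ^ 2) then 0 else 1)
      ≤ ∑ f : E' n → ZMod q, (∏ e, μ e (f e)) * ∑ a : ZMod q, ∑ A : Finset (Fin n),
        ∑ B : Finset (Fin n), (if ε4 * (n : ℝ) ^ 2 <
          |∑ u ∈ A, ∑ v ∈ B, (indf f u v a - muT μ u v a)| then 1 else 0) :=
        Finset.sum_le_sum fun f _ => mul_le_mul_of_nonneg_left (h1 f)
          (Finset.prod_nonneg fun e _ => hμ e _)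
    _ = ∑ a : ZMod q, ∑ A : Finset (Fin n), ∑ B : Finset (Fin n), ∑ f : E' n → ZMod q,
        (∏ e, μ e (f e)) * (if ε4 * (n : ℝ) ^ 2 <
          |∑ u ∈ A, ∑ v ∈ B, (indf f u v a - muT μ u v a)| then 1 else 0) := by
        simp_rw [Finset.mul_sum]
        rw [Finset.sum_comm]
        refine Finset.sum_congr rfl fun a _ => ?_
        rw [Finset.sum_comm]
        refine Finset.sum_congr rfl fun A _ => ?_
        rw [Finset.sum_comm]
    _ ≤ ∑ _a : ZMod q, ∑ _A : Finset (Fin n), ∑ _B : Finset (Fin n),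
        2 * Real.exp (-(ε4 ^ 2 * (n : ℝ) ^ 2 / 16)) :=
        Finset.sum_le_sum fun a _ => Finset.sum_le_sum fun A _ => Finset.sum_le_sum fun B _ =>
          l3_cell n q hn μ hμ hμ1 ε4 h4 a A B
    _ = 2 * q * 4 ^ n * Real.exp (-(ε4 ^ 2 * (n : ℝ) ^ 2 / 16)) := by
        simp only [Finset.sum_const, Finset.card_univ, Fintype.card_finset, Fintype.card_fin,
          nsmul_eq_mul, ZMod.card]
        push_cast
        have : (4 : ℝ) ^ n = 2 ^ n * 2 ^ n := by rw [← mul_pow]; norm_num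
        rw [this]
        ring

end Pool.Agent.HT
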