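import Pool.Agent.Lib_helper59.HT.Defs2
import Pool.Agent.Lib_helper59.HT.A_Z_pos
import Pool.Agent.Lib_helper59.HT.A_conc
import Pool.Agent.Lib_helper59.HT.A_dich
import Pool.Agent.Lib_helper59.HT.A_sampling
import Pool.Agent.Lib_helper28.HT.L1

set_option autoImplicit false

open Finset Matrix

namespace Pool.Agent.HT

theorem l5_nuf_nonneg {n q : ℕ} (f : E' n → ZMod q) (u v : Fin n) (a : ZMod q) :
    0 ≤ nuf f u v a := by unfold nuf; positivity

theorem l5_nur_nonneg {n q m : ℕ} (ρ : Fin m → Fin n → ZMod q) (u v : Fin n) (a : ZMod q) :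
    0 ≤ nur ρ u v a := by unfold nur; positivity

theorem l5_nur_sum {n q m : ℕ} [NeZero q] (hm : 1 ≤ m) (ρ : Fin m → Fin n → ZMod q)
    (u v : Fin n) : ∑ a, nur ρ u v a = 1 := by
  classical
  have hm0 : (m : ℝ) ≠ 0 := by positivity
  unfold nur
  rw [← Finset.sum_div]
  rw [div_eq_one_iff_eq hm0]
  have h : ∀ a : ZMod q, (cnt (fun i : Fin m => ρ i u - ρ i v = a) : ℝ) =
      ∑ i : Fin m, if ρ i u - ρ i v = a then 1 else 0 := by
    intro a
    unfold cnt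
    rw [Finset.sum_boole]
    congr 2
    ext i
    simp only [Finset.mem_filter, Finset.mem_univ, true_and]
  simp_rw [h]
  rw [Finset.sum_comm]
  simp

theorem l5_nur_swap {n q m : ℕ} (ρ : Fin m → Fin n → ZMod q) (u v : Fin n) (a : ZMod q) :
    nur ρ v u (-a) = nur ρ u v a := by
  classical
  unfold nur cnt
  congr 3
  ext i
  simp only [Finset.mem_filter, Finset.mem_univ, true_and]
  constructor
  · intro h
    rw [← neg_sub, h, neg_neg]
  · intro h
    rw [← neg_sub, h]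

/-- the smoothed laws -/
noncomputable def l5mu {n q m : ℕ} (γ : ℝ) (ρ : Fin m → Fin n → ZMod q) (e : E' n)
    (a : ZMod q) : ℝ := (nur ρ e.1.1 e.1.2 a + γ) / (1 + q * γ)

theorem l5mu_nonneg {n q m : ℕ} {γ : ℝ} (hγ : 0 < γ) (ρ : Fin m → Fin n → ZMod q) (e : E' n)
    (a : ZMod q) : 0 ≤ l5mu γ ρ e a := by
  unfold l5mu
  have := l5_nur_nonneg ρ e.1.1 e.1.2 a
  positivity

theorem l5mu_sum {n q m : ℕ} [NeZero q] (hm : 1 ≤ m) {γ : ℝ} (hγ : 0 < γ)
    (ρ : Fin m → Fin n → ZMod q) (e : E' n) : ∑ a, l5mu γ ρ e a = 1 := by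
  unfold l5mu
  rw [← Finset.sum_div, Finset.sum_add_distrib, l5_nur_sum hm]
  have : (1 + (q : ℝ) * γ) ≠ 0 := by positivity
  rw [div_eq_one_iff_eq this]
  simp [ZMod.card]

/-- `∏ ν_f ≤ ∏ μ · e^{...}` -/
theorem l5_prod {n q m : ℕ} [NeZero q] {γ : ℝ} (hγ : 0 < γ) (f : E' n → ZMod q)
    (ρ : Fin m → Fin n → ZMod q) (K : ℝ)
    (hK : ∑ a : ZMod q, ∑ u, ∑ v, |nuf f u v a - nur ρ u v a| ≤ K) :
    ∏ e : E' n, nuf f e.1.1 e.1.2 (f e) ≤
      Real.exp (q * γ * (n : ℝ) ^ 2 + K / γ) * ∏ e : E' n, l5mu γ ρ e (f e) := by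
  classical
  have hq0 : (0 : ℝ) ≤ q := by positivity
  have hpos : (0 : ℝ) < 1 + q * γ := by positivity
  set Δ : E' n → ℝ := fun e => |nuf f e.1.1 e.1.2 (f e) - nur ρ e.1.1 e.1.2 (f e)| with hΔ
  have h1 : ∀ e, nuf f e.1.1 e.1.2 (f e) ≤
      l5mu γ ρ e (f e) * (Real.exp (q * γ) * Real.exp (Δ e / γ)) := by
    intro e
    have h2 : nuf f e.1.1 e.1.2 (f e) ≤ nur ρ e.1.1 e.1.2 (f e) + Δ e := by
      have := le_abs_self (nuf f e.1.1 e.1.2 (f e) - nur ρ e.1.1 e.1.2 (f e))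
      simp only [hΔ]
      linarith
    have h3 := l5_nur_nonneg ρ e.1.1 e.1.2 (f e)
    have hΔ0 : 0 ≤ Δ e := abs_nonneg _
    have h4 : nur ρ e.1.1 e.1.2 (f e) + Δ e ≤
        (nur ρ e.1.1 e.1.2 (f e) + γ) * (1 + Δ e / γ) := by
      have : (nur ρ e.1.1 e.1.2 (f e) + γ) * (1 + Δ e / γ) =
          nur ρ e.1.1 e.1.2 (f e) + Δ e + (γ + nur ρ e.1.1 e.1.2 (f e) * (Δ e / γ)) := by
        field_simp
        ring
      rw [this]
      have : 0 ≤ γ + nur ρ e.1.1 e.1.2 (f e) * (Δ e / γ) := by positivity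
      linarith
    have h5 : (1 + Δ e / γ) ≤ Real.exp (Δ e / γ) := by
      have := Real.add_one_le_exp (Δ e / γ)
      linarith
    have h6 : 1 + q * γ ≤ Real.exp (q * γ) := by
      have := Real.add_one_le_exp (q * γ)
      linarith
    calc nuf f e.1.1 e.1.2 (f e) ≤ (nur ρ e.1.1 e.1.2 (f e) + γ) * (1 + Δ e / γ) := h2.trans h4
      _ = l5mu γ ρ e (f e) * ((1 + q * γ) * (1 + Δ e / γ)) := by
          unfold l5mu
          field_simp
      _ ≤ l5mu γ ρ e (f e) * (Real.exp (q * γ) * Real.exp (Δ e / γ)) := by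
          refine mul_le_mul_of_nonneg_left ?_ (l5mu_nonneg hγ ρ e _)
          exact mul_le_mul h6 h5 (by positivity) (Real.exp_pos _).le
  have hcard : (Fintype.card (E' n) : ℝ) ≤ (n : ℝ) ^ 2 := by
    have : Fintype.card (E' n) ≤ Fintype.card (Fin n × Fin n) := Fintype.card_subtype_le _
    rw [Fintype.card_prod, Fintype.card_fin] at this
    calc (Fintype.card (E' n) : ℝ) ≤ ((n * n : ℕ) : ℝ) := by exact_mod_cast this
      _ = (n : ℝ) ^ 2 := by push_cast; ring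
  have hsum : ∑ e, Δ e ≤ K := by
    refine le_trans ?_ hK
    have g1 : ∀ e, Δ e ≤ ∑ a : ZMod q, |nuf f e.1.1 e.1.2 a - nur ρ e.1.1 e.1.2 a| := fun e =>
      Finset.single_le_sum (f := fun a => |nuf f e.1.1 e.1.2 a - nur ρ e.1.1 e.1.2 a|)
        (fun a _ => abs_nonneg _) (Finset.mem_univ (f e))
    calc ∑ e, Δ e ≤ ∑ e : E' n, ∑ a : ZMod q, |nuf f e.1.1 e.1.2 a - nur ρ e.1.1 e.1.2 a| :=
          Finset.sum_le_sum fun e _ => g1 e
      _ ≤ ∑ p : Fin n × Fin n, ∑ a : ZMod q, |nuf f p.1 p.2 a - nur ρ p.1 p.2 a| := by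
          have : ∑ e : E' n, ∑ a : ZMod q, |nuf f e.1.1 e.1.2 a - nur ρ e.1.1 e.1.2 a| =
            ∑ p ∈ univ.filter (fun x : Fin n × Fin n => 0 < x.1.val ∧ x.1 < x.2),
              ∑ a : ZMod q, |nuf f p.1 p.2 a - nur ρ p.1 p.2 a| :=
            (Finset.sum_subtype (univ.filter (fun x : Fin n × Fin n => 0 < x.1.val ∧ x.1 < x.2))
              (p := fun x => 0 < x.1.val ∧ x.1 < x.2) (fun x => by simp)
              (fun p => ∑ a : ZMod q, |nuf f p.1 p.2 a - nur ρ p.1 p.2 a|)).symm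
          rw [this]
          exact Finset.sum_le_sum_of_subset_of_nonneg (Finset.filter_subset _ _)
            (fun p _ _ => Finset.sum_nonneg fun a _ => abs_nonneg _)
      _ = ∑ a : ZMod q, ∑ u, ∑ v, |nuf f u v a - nur ρ u v a| := by
          rw [Finset.sum_comm]
          refine Finset.sum_congr rfl fun a _ => ?_
          rw [← Fintype.sum_prod_type']
  calc ∏ e : E' n, nuf f e.1.1 e.1.2 (f e)
      ≤ ∏ e : E' n, l5mu γ ρ e (f e) * (Real.exp (q * γ) * Real.exp (Δ e / γ)) :=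
        Finset.prod_le_prod (fun e _ => l5_nuf_nonneg f _ _ _) fun e _ => h1 e
    _ = (∏ e : E' n, l5mu γ ρ e (f e)) * (Real.exp (q * γ * Fintype.card (E' n)) *
          Real.exp ((∑ e, Δ e) / γ)) := by
        rw [Finset.prod_mul_distrib, Finset.prod_mul_distrib, Finset.prod_const,
          Finset.card_univ, ← Real.exp_nat_mul, ← Real.exp_sum, Finset.sum_div]
        congr 3
        ring
    _ ≤ (∏ e : E' n, l5mu γ ρ e (f e)) * (Real.exp (q * γ * (n : ℝ) ^ 2) *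
          Real.exp (K / γ)) := by
        refine mul_le_mul_of_nonneg_left ?_ (Finset.prod_nonneg fun e _ => l5mu_nonneg hγ ρ e _)
        refine mul_le_mul (Real.exp_le_exp.mpr ?_) (Real.exp_le_exp.mpr ?_)
          (Real.exp_pos _).le (Real.exp_pos _).le
        · exact mul_le_mul_of_nonneg_left hcard (by positivity)
        · exact div_le_div_of_nonneg_right hsum hγ.le
    _ = Real.exp (q * γ * (n : ℝ) ^ 2 + K / γ) * ∏ e : E' n, l5mu γ ρ e (f e) := by
        rw [Real.exp_add]; ring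

theorem l5_nur_le_one {n q m : ℕ} [NeZero q] (hm : 1 ≤ m) (ρ : Fin m → Fin n → ZMod q)
    (u v : Fin n) (a : ZMod q) : nur ρ u v a ≤ 1 := by
  rw [← l5_nur_sum hm ρ u v]
  exact Finset.single_le_sum (fun b _ => l5_nur_nonneg ρ u v b) (Finset.mem_univ a)

theorem l5_mu_diff {q : ℕ} {γ x : ℝ} (hγ : 0 < γ) (hx0 : 0 ≤ x) (hx1 : x ≤ 1) :
    |(x + γ) / (1 + q * γ) - x| ≤ (q + 1) * γ := by
  have hq0 : (0 : ℝ) ≤ q := by positivity
  have hpos : (0 : ℝ) < 1 + q * γ := by positivity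
  have h1 : (x + γ) / (1 + q * γ) - x = (γ - q * γ * x) / (1 + q * γ) := by
    field_simp
    ring
  rw [h1, abs_div, abs_of_pos hpos, div_le_iff₀ hpos]
  have h2 : |γ - q * γ * x| ≤ (q + 1) * γ := by
    have h3 : 0 ≤ q * γ * x := by positivity
    have h4 : q * γ * x ≤ q * γ := by
      have : 0 ≤ q * γ := by positivity
      nlinarith
    rw [abs_le]
    constructor <;> nlinarith
  have h5 : (q + 1) * γ ≤ (q + 1) * γ * (1 + q * γ) := by
    have h6 : 0 ≤ (q + 1) * γ := by positivity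
    have h7 : 0 ≤ q * γ := by positivity
    nlinarith
  linarith

theorem l5_muT_diff {n q m : ℕ} [NeZero q] (hm : 1 ≤ m) {γ : ℝ} (hγ : 0 < γ)
    (ρ : Fin m → Fin n → ZMod q) (u v : Fin n) (a : ZMod q) :
    |muT (l5mu γ ρ) u v a - nur ρ u v a| ≤ (q + 1) * γ +
      ((if u.val = 0 then 1 else 0) + (if v.val = 0 then 1 else 0) + (if u = v then 1 else 0)) := by
  have hx0 := l5_nur_nonneg ρ u v a
  have hx1 := l5_nur_le_one hm ρ u v a
  have hq0 : (0 : ℝ) ≤ (q + 1) * γ := by positivity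
  have hnn : (0 : ℝ) ≤ ((if u.val = 0 then 1 else 0) + (if v.val = 0 then 1 else 0) +
      (if u = v then 1 else 0)) := by
    split_ifs <;> norm_num
  by_cases h1 : 0 < u.val ∧ u < v
  · have h2 : muT (l5mu γ ρ) u v a = (nur ρ u v a + γ) / (1 + q * γ) := by
      unfold muT
      rw [dif_pos h1]
      rfl
    rw [h2]
    have := l5_mu_diff (q := q) hγ hx0 hx1
    linarith
  · by_cases h3 : 0 < v.val ∧ v < u
    · have h2 : muT (l5mu γ ρ) u v a = (nur ρ u v a + γ) / (1 + q * γ) := by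
        unfold muT
        rw [dif_neg h1, dif_pos h3]
        unfold l5mu
        simp only
        rw [l5_nur_swap]
      rw [h2]
      have := l5_mu_diff (q := q) hγ hx0 hx1
      linarith
    · have h2 : muT (l5mu γ ρ) u v a = if a = 0 then 1 else 0 := by
        unfold muT
        rw [dif_neg h1, dif_neg h3]
      have h4 : |muT (l5mu γ ρ) u v a - nur ρ u v a| ≤ 1 := by
        rw [h2, abs_le]
        split_ifs <;> constructor <;> linarith
      have h5 : (1 : ℝ) ≤ ((if u.val = 0 then 1 else 0) + (if v.val = 0 then 1 else 0) +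
          (if u = v then 1 else 0)) := by
        by_cases hu : u.val = 0
        · rw [if_pos hu]
          have : (0 : ℝ) ≤ (if v.val = 0 then 1 else 0) + (if u = v then 1 else 0) := by
            split_ifs <;> norm_num
          linarith
        · by_cases hv : v.val = 0
          · rw [if_pos hv]
            have : (0 : ℝ) ≤ (if u.val = 0 then 1 else 0) + (if u = v then 1 else 0) := by
              split_ifs <;> norm_num
            linarith
          · have huv : u = v := by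
              rcases lt_trichotomy u v with h | h | h
              · exact absurd ⟨Nat.pos_of_ne_zero hu, h⟩ h1
              · exact h
              · exact absurd ⟨Nat.pos_of_ne_zero hv, h⟩ h3
            rw [if_neg hu, if_neg hv, if_pos huv]
            norm_num
      linarith

theorem l5_count (n : ℕ) : ∑ u : Fin n, ∑ v : Fin n, (((if u.val = 0 then (1 : ℝ) else 0) +
    (if v.val = 0 then 1 else 0) + (if u = v then 1 else 0))) ≤ 3 * n := by
  have h1 : ∑ u : Fin n, (if u.val = 0 then (1 : ℝ) else 0) ≤ 1 := by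
    rw [Finset.sum_boole]
    have : (univ.filter (fun u : Fin n => u.val = 0)).card ≤ 1 := by
      rw [Finset.card_le_one]
      intro a ha b hb
      simp only [Finset.mem_filter, Finset.mem_univ, true_and] at ha hb
      exact Fin.ext (by omega)
    exact_mod_cast this
  simp_rw [Finset.sum_add_distrib]
  have e1 : ∑ u : Fin n, ∑ _v : Fin n, (if u.val = 0 then (1 : ℝ) else 0) =
      n * ∑ u : Fin n, (if u.val = 0 then (1 : ℝ) else 0) := by
    rw [Finset.mul_sum]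
    refine Finset.sum_congr rfl fun u _ => ?_
    rw [Finset.sum_const, Finset.card_univ, Fintype.card_fin, nsmul_eq_mul]
  have e2 : ∑ _u : Fin n, ∑ v : Fin n, (if v.val = 0 then (1 : ℝ) else 0) =
      n * ∑ u : Fin n, (if u.val = 0 then (1 : ℝ) else 0) := by
    rw [Finset.sum_const, Finset.card_univ, Fintype.card_fin, nsmul_eq_mul]
  have e3 : ∑ u : Fin n, ∑ v : Fin n, (if u = v then (1 : ℝ) else 0) = n := by
    simp
  rw [e1, e2, e3]
  have hn : (0 : ℝ) ≤ n := by positivity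
  have := mul_le_mul_of_nonneg_left h1 hn
  linarith

theorem l5_close {n q m : ℕ} [NeZero q] (hm : 1 ≤ m) {γ : ℝ} (hγ : 0 < γ)
    (f : E' n → ZMod q) (ρ : Fin m → Fin n → ZMod q) {K c4 c5 : ℝ}
    (hK : ∑ a : ZMod q, ∑ u, ∑ v, |nuf f u v a - nur ρ u v a| ≤ K)
    (hc : c4 + K + (q + 1) * γ * (n : ℝ) ^ 2 + 3 * n ≤ c5)
    (h : CutClose (indf f) (muT (l5mu γ ρ)) c4) : CutClose (indf f) (nuf f) c5 := by
  classical
  intro a A B
  have h1 := h a A B
  have h2 : ∑ u ∈ A, ∑ v ∈ B, (indf f u v a - nuf f u v a) =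
      ∑ u ∈ A, ∑ v ∈ B, (indf f u v a - muT (l5mu γ ρ) u v a) +
      ∑ u ∈ A, ∑ v ∈ B, (muT (l5mu γ ρ) u v a - nuf f u v a) := by
    rw [← Finset.sum_add_distrib]
    refine Finset.sum_congr rfl fun u _ => ?_
    rw [← Finset.sum_add_distrib]
    refine Finset.sum_congr rfl fun v _ => ?_
    ring
  have h3 : |∑ u ∈ A, ∑ v ∈ B, (muT (l5mu γ ρ) u v a - nuf f u v a)| ≤
      ∑ u, ∑ v, |muT (l5mu γ ρ) u v a - nuf f u v a| := by
    calc |∑ u ∈ A, ∑ v ∈ B, (muT (l5mu γ ρ) u v a - nuf f u v a)|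
        ≤ ∑ u ∈ A, |∑ v ∈ B, (muT (l5mu γ ρ) u v a - nuf f u v a)| :=
          Finset.abs_sum_le_sum_abs _ _
      _ ≤ ∑ u ∈ A, ∑ v ∈ B, |muT (l5mu γ ρ) u v a - nuf f u v a| :=
          Finset.sum_le_sum fun u _ => Finset.abs_sum_le_sum_abs _ _
      _ ≤ ∑ u ∈ A, ∑ v, |muT (l5mu γ ρ) u v a - nuf f u v a| :=
          Finset.sum_le_sum fun u _ => Finset.sum_le_sum_of_subset_of_nonneg
            (Finset.subset_univ _) fun v _ _ => abs_nonneg _
      _ ≤ ∑ u, ∑ v, |muT (l5mu γ ρ) u v a - nuf f u v a| :=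
          Finset.sum_le_sum_of_subset_of_nonneg (Finset.subset_univ _)
            fun u _ _ => Finset.sum_nonneg fun v _ => abs_nonneg _
  have h4 : ∑ u, ∑ v, |muT (l5mu γ ρ) u v a - nuf f u v a| ≤
      K + ((q + 1) * γ * (n : ℝ) ^ 2 + 3 * n) := by
    calc ∑ u, ∑ v, |muT (l5mu γ ρ) u v a - nuf f u v a|
        ≤ ∑ u, ∑ v, (|nuf f u v a - nur ρ u v a| + ((q + 1) * γ +
          ((if u.val = 0 then 1 else 0) + (if v.val = 0 then 1 else 0) +
            (if u = v then 1 else 0)))) := by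
          refine Finset.sum_le_sum fun u _ => Finset.sum_le_sum fun v _ => ?_
          have g1 := l5_muT_diff hm hγ ρ u v a
          have g2 : muT (l5mu γ ρ) u v a - nuf f u v a =
            (muT (l5mu γ ρ) u v a - nur ρ u v a) - (nuf f u v a - nur ρ u v a) := by ring
          rw [g2]
          refine (abs_sub _ _).trans ?_
          linarith
      _ = ∑ u, ∑ v, |nuf f u v a - nur ρ u v a| + ((q + 1) * γ * (n : ℝ) ^ 2 +
          ∑ u : Fin n, ∑ v : Fin n, (((if u.val = 0 then (1 : ℝ) else 0) +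
            (if v.val = 0 then 1 else 0) + (if u = v then 1 else 0)))) := by
          simp_rw [Finset.sum_add_distrib]
          have : ∑ _u : Fin n, ∑ _v : Fin n, ((q : ℝ) + 1) * γ = (q + 1) * γ * (n : ℝ) ^ 2 := by
            simp
            ring
          rw [this]
      _ ≤ K + ((q + 1) * γ * (n : ℝ) ^ 2 + 3 * n) := by
          have g3 : ∑ u, ∑ v, |nuf f u v a - nur ρ u v a| ≤ K := by
            refine le_trans ?_ hK
            exact Finset.single_le_sum (f := fun a : ZMod q => ∑ u, ∑ v,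
              |nuf f u v a - nur ρ u v a|)
              (fun b _ => Finset.sum_nonneg fun u _ => Finset.sum_nonneg fun v _ => abs_nonneg _)
              (Finset.mem_univ a)
          have g4 := l5_count n
          linarith
  rw [h2]
  refine (abs_add_le _ _).trans ?_
  linarith

open Classical in
/-- the union bound for fixed parameters -/
theorem l5_union (n q m : ℕ) (hn : 1 ≤ n) (hm : 1 ≤ m) [NeZero q] (bad : (E' n → ZMod q) → Prop)
    {γ ε4 ε5 : ℝ} (hγ : 0 < γ) (h4 : 0 < ε4) (h41 : ε4 ≤ 1)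
    (hbad : ∀ f, bad f → ¬ CutClose (indf f) (nuf f) (ε5 * (n : ℝ) ^ 2))
    (hc : ε4 * (n : ℝ) ^ 2 + q * (n : ℝ) ^ 2 / Real.sqrt m + (q + 1) * γ * (n : ℝ) ^ 2 + 3 * n ≤
      ε5 * (n : ℝ) ^ 2) :
    mass (fun τ : E' n → Tri n => ∃ f ∈ Kq (ZMod q) τ, bad f) ≤
      Z n * (Real.exp (q * γ * (n : ℝ) ^ 2 + q * (n : ℝ) ^ 2 / Real.sqrt m / γ) *
        (((q : ℝ) ^ n) ^ m * (2 * q * 4 ^ n * Real.exp (-(ε4 ^ 2 * (n : ℝ) ^ 2 / 16))))) := by
  have hZ : 0 ≤ Z n := (Z_pos n hn).le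
  set K : ℝ := q * (n : ℝ) ^ 2 / Real.sqrt m with hKd
  set Ex : ℝ := Real.exp (q * γ * (n : ℝ) ^ 2 + K / γ) with hEx
  have hEx0 : 0 < Ex := Real.exp_pos _
  -- step 1: union bound
  have s1 : mass (fun τ : E' n → Tri n => ∃ f ∈ Kq (ZMod q) τ, bad f) ≤
      ∑ f : E' n → ZMod q, if bad f then mass (fun τ : E' n → Tri n => f ∈ Kq (ZMod q) τ) else 0 := by
    unfold mass
    have e1 : ∀ f : E' n → ZMod q, (if bad f then ∑ τ : E' n → Tri n,
        (if f ∈ Kq (ZMod q) τ then wt τ else 0) else 0) =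
        ∑ τ : E' n → Tri n, (if bad f then (if f ∈ Kq (ZMod q) τ then wt τ else 0) else 0) := by
      intro f
      split_ifs
      · rfl
      · simp
    simp_rw [e1]
    rw [Finset.sum_comm]
    refine Finset.sum_le_sum fun τ _ => ?_
    have hw : 0 ≤ wt τ := by unfold wt; positivity
    have hnn : ∀ f : E' n → ZMod q, 0 ≤
        (if bad f then (if f ∈ Kq (ZMod q) τ then wt τ else 0) else 0) := by
      intro f
      split_ifs <;> first | exact hw | exact le_refl _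
    split_ifs with h
    · obtain ⟨f, hf, hb⟩ := h
      calc wt τ = (if bad f then (if f ∈ Kq (ZMod q) τ then wt τ else 0) else 0) := by
            rw [if_pos hb, if_pos hf]
        _ ≤ _ := Finset.single_le_sum (f := fun f : E' n → ZMod q =>
            (if bad f then (if f ∈ Kq (ZMod q) τ then wt τ else 0) else 0))
            (fun f _ => hnn f) (Finset.mem_univ f)
    · exact Finset.sum_nonneg fun f _ => hnn f
  -- step 2: each term
  have s2 : ∀ f : E' n → ZMod q,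
      (if bad f then mass (fun τ : E' n → Tri n => f ∈ Kq (ZMod q) τ) else 0) ≤
      Z n * (Ex * ∑ ρ : Fin m → Fin n → ZMod q, (∏ e, l5mu γ ρ e (f e)) *
        (if CutClose (indf f) (muT (l5mu γ ρ)) (ε4 * (n : ℝ) ^ 2) then 0 else 1)) := by
    intro f
    have hnn : ∀ ρ : Fin m → Fin n → ZMod q, 0 ≤ (∏ e, l5mu γ ρ e (f e)) *
        (if CutClose (indf f) (muT (l5mu γ ρ)) (ε4 * (n : ℝ) ^ 2) then (0 : ℝ) else 1) := by
      intro ρ
      refine mul_nonneg (Finset.prod_nonneg fun e _ => l5mu_nonneg hγ ρ e _) ?_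
      split_ifs <;> norm_num
    split_ifs with hb
    · obtain ⟨ρ, hρ⟩ := sampling n q m hn hm f
      have h1 := ldp_avoid_pr n q hn f
      refine h1.trans (mul_le_mul_of_nonneg_left ?_ hZ)
      refine (l5_prod hγ f ρ K hρ).trans (mul_le_mul_of_nonneg_left ?_ hEx0.le)
      have h2 : ¬ CutClose (indf f) (muT (l5mu γ ρ)) (ε4 * (n : ℝ) ^ 2) := fun h =>
        hbad f hb (l5_close hm hγ f ρ hρ hc h)
      calc ∏ e, l5mu γ ρ e (f e) = (∏ e, l5mu γ ρ e (f e)) *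
            (if CutClose (indf f) (muT (l5mu γ ρ)) (ε4 * (n : ℝ) ^ 2) then 0 else 1) := by
            rw [if_neg h2, mul_one]
        _ ≤ _ := Finset.single_le_sum (f := fun ρ : Fin m → Fin n → ZMod q =>
            (∏ e, l5mu γ ρ e (f e)) *
            (if CutClose (indf f) (muT (l5mu γ ρ)) (ε4 * (n : ℝ) ^ 2) then (0 : ℝ) else 1))
            (fun ρ _ => hnn ρ) (Finset.mem_univ ρ)
    · exact mul_nonneg hZ (mul_nonneg hEx0.le (Finset.sum_nonneg fun ρ _ => hnn ρ))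
  refine s1.trans ((Finset.sum_le_sum fun f _ => s2 f).trans ?_)
  rw [← Finset.mul_sum, ← Finset.mul_sum]
  refine mul_le_mul_of_nonneg_left (mul_le_mul_of_nonneg_left ?_ hEx0.le) hZ
  rw [Finset.sum_comm]
  calc ∑ ρ : Fin m → Fin n → ZMod q, ∑ f : E' n → ZMod q, (∏ e, l5mu γ ρ e (f e)) *
        (if CutClose (indf f) (muT (l5mu γ ρ)) (ε4 * (n : ℝ) ^ 2) then (0 : ℝ) else 1)
      ≤ ∑ _ρ : Fin m → Fin n → ZMod q,
        2 * q * 4 ^ n * Real.exp (-(ε4 ^ 2 * (n : ℝ) ^ 2 / 16)) :=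
        Finset.sum_le_sum fun ρ _ => conc n q hn (l5mu γ ρ) (fun e a => l5mu_nonneg hγ ρ e a)
          (fun e => l5mu_sum hm hγ ρ e) ε4 h4 h41
    _ = ((q : ℝ) ^ n) ^ m * (2 * q * 4 ^ n * Real.exp (-(ε4 ^ 2 * (n : ℝ) ^ 2 / 16))) := by
        rw [Finset.sum_const, Finset.card_univ, nsmul_eq_mul]
        simp [ZMod.card]

theorem l5_limit (q m : ℕ) (hq : 1 ≤ q) (c : ℝ) (hc : 0 < c) (ε : ℝ) (hε : 0 < ε) :
    ∃ N : ℕ, ∀ n : ℕ, N ≤ n →
      ((q : ℝ) ^ n) ^ m * (2 * q * 4 ^ n * Real.exp (-(c * (n : ℝ) ^ 2))) ≤ ε := by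
  have hq0 : (0 : ℝ) < q := by positivity
  set b : ℝ := m * Real.log q + Real.log 4 with hb
  have h1 : Filter.Tendsto (fun n : ℕ => 2 * (q : ℝ) * Real.exp (-(n : ℝ))) Filter.atTop
      (nhds (2 * q * 0)) := by
    refine Filter.Tendsto.const_mul _ ?_
    exact Real.tendsto_exp_atBot.comp
      (Filter.tendsto_neg_atTop_atBot.comp tendsto_natCast_atTop_atTop)
  rw [mul_zero] at h1
  have h2 : ∀ᶠ n : ℕ in Filter.atTop, 2 * (q : ℝ) * Real.exp (-(n : ℝ)) < ε :=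
    h1.eventually (gt_mem_nhds hε)
  obtain ⟨N1, hN1⟩ := Filter.eventually_atTop.mp h2
  obtain ⟨N2, hN2⟩ := exists_nat_ge ((b + 1) / c)
  refine ⟨max N1 N2, fun n hn => ?_⟩
  have h3 := hN1 n ((le_max_left _ _).trans hn)
  have h4 : (b + 1) / c ≤ n := hN2.trans (by exact_mod_cast (le_max_right N1 N2).trans hn)
  have h5 : ((q : ℝ) ^ n) ^ m * (2 * q * 4 ^ n * Real.exp (-(c * (n : ℝ) ^ 2))) =
      2 * q * Real.exp (b * n - c * (n : ℝ) ^ 2) := by
    have e1 : (q : ℝ) ^ n = Real.exp (n * Real.log q) := by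
      rw [Real.exp_nat_mul, Real.exp_log hq0]
    have e2 : (4 : ℝ) ^ n = Real.exp (n * Real.log 4) := by
      rw [Real.exp_nat_mul, Real.exp_log (by norm_num)]
    rw [e1, e2, ← Real.exp_nat_mul]
    have e3 : b * n - c * (n : ℝ) ^ 2 = m * (n * Real.log q) + (n * Real.log 4 +
        -(c * (n : ℝ) ^ 2)) := by
      rw [hb]; ring
    rw [e3, Real.exp_add, Real.exp_add]
    ring
  rw [h5]
  refine le_trans ?_ h3.le
  refine mul_le_mul_of_nonneg_left (Real.exp_le_exp.mpr ?_) (by positivity)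
  rw [div_le_iff₀ hc] at h4
  have hn0 : (0 : ℝ) ≤ n := by positivity
  nlinarith

/-- BLOCK G2a = L5 -/
theorem dense_dichotomy_pr (q : ℕ) [NeZero q] (hq : 2 ≤ q) (ε0 ε1 ε : ℝ) (h0 : 0 < ε0)
    (h1 : 0 < ε1) (h : 0 < ε) : ∃ N : ℕ, ∀ n : ℕ, N ≤ n →
    mass (fun τ : E' n → Tri n => ∃ f ∈ Kq (ZMod q) τ, ¬ Small q ε0 f ∧ ¬ QR q ε1 f) ≤
      ε * Z n := by
  classical
  have hq0 : (0 : ℝ) < q := by positivity
  obtain ⟨ε5, h5, hdich⟩ := dich q hq ε0 ε1 h0 h1
  set ε4 : ℝ := min (ε5 / 4) 1 with hε4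
  have h4 : 0 < ε4 := by positivity
  have h41 : ε4 ≤ 1 := min_le_right _ _
  have h45 : ε4 ≤ ε5 / 4 := min_le_left _ _
  set γ : ℝ := min (ε5 / (4 * (q + 1))) (ε4 ^ 2 / (64 * q)) with hγd
  have hγ : 0 < γ := by positivity
  have hγ1 : (q + 1) * γ ≤ ε5 / 4 := by
    have : γ ≤ ε5 / (4 * (q + 1)) := min_le_left _ _
    calc ((q : ℝ) + 1) * γ ≤ (q + 1) * (ε5 / (4 * (q + 1))) :=
          mul_le_mul_of_nonneg_left this (by positivity)
      _ = ε5 / 4 := by field_simp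
  have hγ2 : q * γ ≤ ε4 ^ 2 / 64 := by
    have : γ ≤ ε4 ^ 2 / (64 * q) := min_le_right _ _
    calc (q : ℝ) * γ ≤ q * (ε4 ^ 2 / (64 * q)) := mul_le_mul_of_nonneg_left this hq0.le
      _ = ε4 ^ 2 / 64 := by field_simp
  -- choice of m
  obtain ⟨m0, hm0⟩ := exists_nat_ge ((max (8 * q / ε5) (64 * q / (γ * ε4 ^ 2))) ^ 2)
  set m : ℕ := m0 + 1 with hmd
  have hm : 1 ≤ m := by omega
  have hmp : (0 : ℝ) < m := by positivity
  have hsq : max (8 * q / ε5) (64 * q / (γ * ε4 ^ 2)) ≤ Real.sqrt m := by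
    apply Real.le_sqrt_of_sq_le
    refine hm0.trans ?_
    rw [hmd]
    push_cast
    linarith
  have hsp : 0 < Real.sqrt m := Real.sqrt_pos.mpr hmp
  have hm1 : q / Real.sqrt m ≤ ε5 / 8 := by
    have : 8 * q / ε5 ≤ Real.sqrt m := (le_max_left _ _).trans hsq
    rw [div_le_iff₀ h5] at this
    rw [div_le_iff₀ hsp]
    linarith
  have hm2 : q / Real.sqrt m / γ ≤ ε4 ^ 2 / 64 := by
    have h6 : 64 * q / (γ * ε4 ^ 2) ≤ Real.sqrt m := (le_max_right _ _).trans hsq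
    rw [div_le_iff₀ (by positivity)] at h6
    rw [div_div, div_le_iff₀ (by positivity)]
    linarith
  obtain ⟨N1, hN1⟩ := l5_limit q m (by omega) (ε4 ^ 2 / 32) (by positivity) ε h
  obtain ⟨N2, hN2⟩ := exists_nat_ge (24 / ε5)
  refine ⟨max (max N1 N2) 1, fun n hn => ?_⟩
  have hn1 : 1 ≤ n := (le_max_right _ _).trans hn
  have hnN1 : N1 ≤ n := ((le_max_left _ _).trans (le_max_left _ _)).trans hn
  have hnN2 : N2 ≤ n := ((le_max_right _ _).trans (le_max_left _ _)).trans hn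
  have hn0 : (0 : ℝ) < n := by positivity
  have h7 : 24 / ε5 ≤ n := hN2.trans (by exact_mod_cast hnN2)
  have h8 : 3 * (n : ℝ) ≤ ε5 / 8 * (n : ℝ) ^ 2 := by
    rw [div_le_iff₀ h5] at h7
    nlinarith
  have hc : ε4 * (n : ℝ) ^ 2 + q * (n : ℝ) ^ 2 / Real.sqrt m + (q + 1) * γ * (n : ℝ) ^ 2 + 3 * n ≤
      ε5 * (n : ℝ) ^ 2 := by
    have hn2 : (0 : ℝ) ≤ (n : ℝ) ^ 2 := by positivity
    have g1 : ε4 * (n : ℝ) ^ 2 ≤ ε5 / 4 * (n : ℝ) ^ 2 := mul_le_mul_of_nonneg_right h45 hn2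
    have g2 : q * (n : ℝ) ^ 2 / Real.sqrt m ≤ ε5 / 8 * (n : ℝ) ^ 2 := by
      have : q * (n : ℝ) ^ 2 / Real.sqrt m = q / Real.sqrt m * (n : ℝ) ^ 2 := by ring
      rw [this]
      exact mul_le_mul_of_nonneg_right hm1 hn2
    have g3 : (q + 1) * γ * (n : ℝ) ^ 2 ≤ ε5 / 4 * (n : ℝ) ^ 2 :=
      mul_le_mul_of_nonneg_right hγ1 hn2
    have g4 : 0 ≤ ε5 * (n : ℝ) ^ 2 := by positivity
    nlinarith
  have hbad : ∀ f : E' n → ZMod q, (¬ Small q ε0 f ∧ ¬ QR q ε1 f) →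
      ¬ CutClose (indf f) (nuf f) (ε5 * (n : ℝ) ^ 2) := by
    intro f hf hcl
    rcases hdich n hn1 f hcl with h9 | h9
    · exact hf.1 h9
    · exact hf.2 h9
  have hmain := l5_union n q m hn1 hm (fun f => ¬ Small q ε0 f ∧ ¬ QR q ε1 f) hγ h4 h41 hbad hc
  refine hmain.trans ?_
  have hZ : 0 ≤ Z n := (Z_pos n hn1).le
  rw [mul_comm ε]
  refine mul_le_mul_of_nonneg_left ?_ hZ
  refine le_trans ?_ (hN1 n hnN1)
  have e1 : Real.exp (q * γ * (n : ℝ) ^ 2 + q * (n : ℝ) ^ 2 / Real.sqrt m / γ) *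
      (((q : ℝ) ^ n) ^ m * (2 * q * 4 ^ n * Real.exp (-(ε4 ^ 2 * (n : ℝ) ^ 2 / 16)))) =
      ((q : ℝ) ^ n) ^ m * (2 * q * 4 ^ n *
        Real.exp (q * γ * (n : ℝ) ^ 2 + q * (n : ℝ) ^ 2 / Real.sqrt m / γ +
          -(ε4 ^ 2 * (n : ℝ) ^ 2 / 16))) := by
    rw [Real.exp_add (q * γ * (n : ℝ) ^ 2 + q * (n : ℝ) ^ 2 / Real.sqrt m / γ)]
    ring
  rw [e1]
  refine mul_le_mul_of_nonneg_left (mul_le_mul_of_nonneg_left (Real.exp_le_exp.mpr ?_)
    (by positivity)) (by positivity)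
  have hn2 : (0 : ℝ) ≤ (n : ℝ) ^ 2 := by positivity
  have g1 : q * γ * (n : ℝ) ^ 2 ≤ ε4 ^ 2 / 64 * (n : ℝ) ^ 2 := mul_le_mul_of_nonneg_right hγ2 hn2
  have g2 : q * (n : ℝ) ^ 2 / Real.sqrt m / γ ≤ ε4 ^ 2 / 64 * (n : ℝ) ^ 2 := by
    have : q * (n : ℝ) ^ 2 / Real.sqrt m / γ = q / Real.sqrt m / γ * (n : ℝ) ^ 2 := by ring
    rw [this]
    exact mul_le_mul_of_nonneg_right hm2 hn2
  linarith

end Pool.Agent.HT
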